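import Pool.Agent.H87.BP.Stm2

set_option autoImplicit false

/-!
# Existence of the derivative in the direction orthogonal to the velocity (Rademacher)
-/

namespace H36.BP

open MeasureTheory Set Metric Filter Topology H82.Bil H87.BP

/-- difference quotients in the direction orthogonal to the velocity -/
noncomputable def dq (f : ℂ × Dir → ℝ) (n : ℕ) (a : ℂ × Dir) : ℝ :=
  ((n : ℝ) + 1) * (f (a.1 + ((((n : ℝ) + 1)⁻¹ : ℝ) : ℂ) * (Complex.I * e a.2), a.2) - f a)

lemma measurable_dq {f : ℂ × Dir → ℝ} (hf : Measurable f) (n : ℕ) : Measurable (dq f n) := by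
  have := continuous_e
  have h1 : Continuous fun a : ℂ × Dir =>
      ((a.1 + ((((n : ℝ) + 1)⁻¹ : ℝ) : ℂ) * (Complex.I * e a.2), a.2) : ℂ × Dir) := by
    fun_prop
  exact measurable_const.mul ((hf.comp h1.measurable).sub hf)

/-- the derivative -/
noncomputable def vv (T : Table) (f : ℂ × Dir → ℝ) : ℂ × Dir → ℝ :=
  (T.U ×ˢ (univ : Set Dir)).indicator (fun a => limsup (fun n => dq f n a) atTop)

lemma measurable_vv (T : Table) {f : ℂ × Dir → ℝ} (hf : Measurable f) : Measurable (vv T f) :=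
  (Measurable.limsup fun n => measurable_dq hf n).indicator
    (T.isOpen.measurableSet.prod MeasurableSet.univ)

lemma norm_perp (θ : Dir) : ‖Complex.I * e θ‖ = 1 := by
  rw [norm_mul, norm_e, Complex.norm_I, one_mul]

lemma dq_bound {T : Table} {f : ℂ × Dir → ℝ} {C : Dir → ℝ} (hL : Lip T f C) {x : ℂ}
    (hx : x ∈ T.U) (θ : Dir) : ∀ᶠ n : ℕ in atTop, |dq f n (x, θ)| ≤ C θ := by
  obtain ⟨ε, hε, hball⟩ := Metric.isOpen_iff.1 T.isOpen x hx
  have h1 : Tendsto (fun n : ℕ => 1 / ((n : ℝ) + 1)) atTop (𝓝 0) :=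
    tendsto_one_div_add_atTop_nhds_zero_nat
  filter_upwards [h1.eventually (gt_mem_nhds hε)] with n hn
  have hn0 : (0 : ℝ) < (n : ℝ) + 1 := by positivity
  set y : ℂ := x + ((((n : ℝ) + 1)⁻¹ : ℝ) : ℂ) * (Complex.I * e θ) with hy
  have hyx : ‖y - x‖ = ((n : ℝ) + 1)⁻¹ := by
    rw [hy, add_sub_cancel_left, norm_mul, norm_perp, mul_one, Complex.norm_real,
      Real.norm_eq_abs, abs_of_pos (by positivity)]
  have hyb : y ∈ ball x ε := by
    rw [mem_ball_iff_norm, hyx, inv_eq_one_div]; exact hn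
  have hseg : segment ℝ y x ⊆ T.U :=
    ((convex_ball x ε).segment_subset hyb (mem_ball_self hε)).trans hball
  have h2 := hL θ y x hseg
  rw [hyx] at h2
  have h3 : dq f n (x, θ) = ((n : ℝ) + 1) * (f (y, θ) - f (x, θ)) := rfl
  rw [h3, abs_mul, abs_of_pos hn0]
  calc ((n : ℝ) + 1) * |f (y, θ) - f (x, θ)|
      ≤ ((n : ℝ) + 1) * (C θ * ((n : ℝ) + 1)⁻¹) := mul_le_mul_of_nonneg_left h2 hn0.le
    _ = C θ := by field_simp

lemma vv_bound {T : Table} {f : ℂ × Dir → ℝ} {C : Dir → ℝ} (hL : Lip T f C) {x : ℂ}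
    (hx : x ∈ T.U) (θ : Dir) : |vv T f (x, θ)| ≤ C θ := by
  have h1 := dq_bound hL hx θ
  have h2 : vv T f (x, θ) = limsup (fun n => dq f n (x, θ)) atTop :=
    indicator_of_mem (s := T.U ×ˢ (univ : Set Dir)) ⟨hx, mem_univ _⟩ _
  have hup : ∀ᶠ n : ℕ in atTop, dq f n (x, θ) ≤ C θ := h1.mono fun n hn => (abs_le.1 hn).2
  have hlo : ∀ᶠ n : ℕ in atTop, -C θ ≤ dq f n (x, θ) := h1.mono fun n hn => (abs_le.1 hn).1
  have hb : IsBoundedUnder (· ≤ ·) atTop (fun n => dq f n (x, θ)) := ⟨C θ, hup⟩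
  have hb' : IsBoundedUnder (· ≥ ·) atTop (fun n => dq f n (x, θ)) := ⟨-C θ, hlo⟩
  rw [h2, abs_le]
  constructor
  · exact le_limsup_of_frequently_le hlo.frequently hb
  · exact limsup_le_of_le hb'.isCoboundedUnder_le hup

lemma ae_diff {T : Table} {f : ℂ × Dir → ℝ} {C : Dir → ℝ} (hL : Lip T f C) (θ : Dir) :
    ∀ᵐ x : ℂ, x ∈ T.U → DifferentiableAt ℝ (fun z : ℂ => f (z, θ)) x := by
  have key : volume {x : ℂ | x ∈ T.U ∧ ¬ DifferentiableAt ℝ (fun z : ℂ => f (z, θ)) x} = 0 := by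
    refine measure_null_of_locally_null _ ?_
    rintro x ⟨hx, -⟩
    obtain ⟨ε, hε, hball⟩ := Metric.isOpen_iff.1 T.isOpen x hx
    refine ⟨{z : ℂ | z ∈ T.U ∧ ¬ DifferentiableAt ℝ (fun z : ℂ => f (z, θ)) z} ∩ ball x ε,
      inter_mem self_mem_nhdsWithin (nhdsWithin_le_nhds (ball_mem_nhds x hε)), ?_⟩
    have hlip : LipschitzOnWith (C θ).toNNReal (fun z : ℂ => f (z, θ)) (ball x ε) := by
      refine LipschitzOnWith.of_dist_le_mul fun y hy z hz => ?_
      rw [Real.dist_eq, dist_eq_norm]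
      refine (hL θ y z (((convex_ball x ε).segment_subset hy hz).trans hball)).trans ?_
      exact mul_le_mul_of_nonneg_right (Real.le_coe_toNNReal _) (norm_nonneg _)
    have h1 := hlip.ae_differentiableWithinAt_of_mem (μ := (volume : Measure ℂ))
    refine measure_mono_null ?_ h1
    rintro z ⟨⟨hz1, hz2⟩, hz3⟩
    simp only [mem_compl_iff, mem_ofPred_eq, Classical.not_imp]
    refine ⟨hz3, fun h => hz2 ?_⟩
    exact h.differentiableAt (isOpen_ball.mem_nhds hz3)
  have h2 := measure_eq_zero_iff_ae_notMem.1 key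
  filter_upwards [h2] with x hx hxU
  by_contra hn
  exact hx ⟨hxU, hn⟩

lemma vv_der {T : Table} {f : ℂ × Dir → ℝ} {C : Dir → ℝ} (hL : Lip T f C) : Der T f (vv T f) := by
  intro θ
  rw [ae_restrict_iff' T.isOpen.measurableSet]
  filter_upwards [ae_diff hL θ] with x hx hxU
  have hd := hx hxU
  set w : ℂ := Complex.I * e θ with hw
  have h1 : HasDerivAt (fun s : ℝ => x + s * w) w 0 := by
    have h2 : HasDerivAt (fun s : ℝ => (s : ℂ)) 1 0 := Complex.ofRealCLM.hasDerivAt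
    have h3 := (h2.mul_const w).const_add x
    rw [one_mul] at h3
    exact h3
  have hd' : HasFDerivAt (fun z : ℂ => f (z, θ)) (fderiv ℝ (fun z : ℂ => f (z, θ)) x)
      (x + ((0 : ℝ) : ℂ) * w) := by
    have : x + ((0 : ℝ) : ℂ) * w = x := by simp
    rw [this]
    exact hd.hasFDerivAt
  have h4 : HasDerivAt (fun s : ℝ => f (x + s * w, θ)) (fderiv ℝ (fun z : ℂ => f (z, θ)) x w) 0 := by
    have h := HasFDerivAt.comp_hasDerivAt (l := fun z : ℂ => f (z, θ))
      (f := fun s : ℝ => x + s * w) (0 : ℝ) hd' h1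
    exact h
  have h5 : vv T f (x, θ) = fderiv ℝ (fun z : ℂ => f (z, θ)) x w := by
    have h2 : vv T f (x, θ) = limsup (fun n => dq f n (x, θ)) atTop :=
      indicator_of_mem (s := T.U ×ˢ (univ : Set Dir)) ⟨hxU, mem_univ _⟩ _
    rw [h2]
    refine Tendsto.limsup_eq ?_
    have h6 := hasDerivAt_iff_tendsto_slope_zero.1 h4
    have h7 : Tendsto (fun n : ℕ => ((n : ℝ) + 1)⁻¹) atTop (𝓝[≠] 0) := by
      rw [tendsto_nhdsWithin_iff]
      constructor
      · have := tendsto_one_div_add_atTop_nhds_zero_nat (𝕜 := ℝ)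
        simpa only [one_div] using this
      · refine Eventually.of_forall fun n => ?_
        have : (0 : ℝ) < ((n : ℝ) + 1)⁻¹ := by positivity
        exact this.ne'
    refine (h6.comp h7).congr fun n => ?_
    simp only [Function.comp, zero_add, inv_inv, smul_eq_mul, dq, Complex.ofReal_zero, zero_mul,
      add_zero]
    rfl
  rw [h5]
  exact h4

/-- **Piece B1.** -/
theorem pieceB1 : PieceB1 := by
  intro T f C hf hL
  exact ⟨vv T f, measurable_vv T hf, fun x hx θ => vv_bound hL hx θ, vv_der hL⟩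

end H36.BP
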