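import Pool.Agent.H87.BP.Stm2

set_option autoImplicit false

/-!
# The derivative is carried by the flow up to sign
-/

namespace H36.BP

open MeasureTheory Set Metric Filter Topology H82.Bil H87.BP

open scoped ComplexConjugate

variable {T : Table}

/-- position part of a short step -/
noncomputable def gp (T : Table) (o : Option T.ι) (h : ℝ) (η : Dir) (x : ℂ) : ℂ :=
  gw T (wd T o) (x + h * e η)

lemma gp_perp (o : Option T.ι) (h : ℝ) (η : Dir) (x : ℂ) (s : ℝ) :
    gp T o h η (x + s * (Complex.I * e η)) =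
      gp T o h η x + ((sg o * s : ℝ) : ℂ) * (Complex.I * e (kw T (wd T o) η)) := by
  cases o with
  | none =>
    simp only [gp, wd, gw_nil, kw_nil, sg]
    push_cast; ring
  | some i =>
    simp only [gp, wd, gw_cons, gw_nil, kw_cons, kw_nil, sg]
    have h1 : x + s * (Complex.I * e η) + h * e η = (x + h * e η) + s * (Complex.I * e η) := by
      ring
    rw [h1, T.r_add, T.e_rd, map_mul, Complex.conj_I]
    push_cast; ring

lemma mp_gp (o : Option T.ι) (h : ℝ) (η : Dir) : MeasurePreserving (gp T o h η) := by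
  have h1 : MeasurePreserving (fun x : ℂ => x + h * e η) :=
    measurePreserving_add_right (volume : Measure ℂ) (h * e η)
  cases o with
  | none => exact h1
  | some i => exact (mp_r i).comp h1

/-- the statement for fixed directions -/
lemma fixed {f v : ℂ × Dir → ℝ} (hf : FlowInvariant T f) (hD : Der T f v) (o : Option T.ι) (h : ℝ)
    (θ η : Dir) : ∀ᵐ x : ℂ, ((x, (θ, η)) : P3) ∈ SS T o h →
      v (gp T o h η x, kw T (wd T o) η) = sg o * v (x, η) := by
  have h1 : ∀ᵐ x : ℂ, x ∈ T.U →
      HasDerivAt (fun s : ℝ => f (x + s * (Complex.I * e η), η)) (v (x, η)) 0 :=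
    (ae_restrict_iff' T.isOpen.measurableSet).1 (hD η)
  have h2 : ∀ᵐ x : ℂ, x ∈ T.U →
      HasDerivAt (fun s : ℝ => f (x + s * (Complex.I * e (kw T (wd T o) η)), kw T (wd T o) η))
        (v (x, kw T (wd T o) η)) 0 :=
    (ae_restrict_iff' T.isOpen.measurableSet).1 (hD _)
  have h3 := (mp_gp o h η).quasiMeasurePreserving.ae h2
  filter_upwards [h1, h3] with x a1 a2 hy
  have hU := SS_memU hy
  have b1 := a1 hU.1
  have b2 : HasDerivAt (fun s : ℝ => f (gp T o h η x + s * (Complex.I * e (kw T (wd T o) η)),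
      kw T (wd T o) η)) (v (gp T o h η x, kw T (wd T o) η)) 0 := a2 hU.2
  -- the two functions agree near 0
  have hst : Step T (wd T o) (x, η) h (Phi T (wd T o) (x, η) h) := hy
  have hopen := hst.open_
  have hc : Tendsto (fun s : ℝ => (((x + s * (Complex.I * e η), η) : ℂ × Dir), h)) (𝓝 0)
      (𝓝 ((x, η), h)) := by
    have hcc : Continuous (fun s : ℝ => (((x + s * (Complex.I * e η), η) : ℂ × Dir), h)) := by
      fun_prop
    have := hcc.tendsto 0
    simpa using this
  have hev : ∀ᶠ s : ℝ in 𝓝 0,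
      f (gp T o h η x + ((sg o * s : ℝ) : ℂ) * (Complex.I * e (kw T (wd T o) η)),
        kw T (wd T o) η) = f (x + s * (Complex.I * e η), η) := by
    filter_upwards [hc.eventually hopen] with s hs
    have := hf.step hs
    rw [← gp_perp]
    exact this
  have b3 : HasDerivAt (fun s : ℝ => f (gp T o h η x +
      ((sg o * s : ℝ) : ℂ) * (Complex.I * e (kw T (wd T o) η)), kw T (wd T o) η))
      (v (gp T o h η x, kw T (wd T o) η) * sg o) 0 := by
    have hm : HasDerivAt (fun s : ℝ => sg o * s) (sg o) 0 := by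
      have := (hasDerivAt_id (0 : ℝ)).const_mul (sg o)
      rw [mul_one] at this
      exact this
    have b2' : HasDerivAt (fun s : ℝ => f (gp T o h η x + s * (Complex.I * e (kw T (wd T o) η)),
      kw T (wd T o) η)) (v (gp T o h η x, kw T (wd T o) η)) (sg o * 0) := by
      rw [mul_zero]; exact b2
    have := HasDerivAt.comp (0 : ℝ) b2' hm
    exact this
  have b4 := b3.congr_of_eventuallyEq (hev.mono fun s hs => hs.symm)
  have b5 := b4.unique b1
  have hsq : sg o * sg o = (1 : ℝ) := by
    cases o <;> simp [sg]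
  calc v (gp T o h η x, kw T (wd T o) η)
      = sg o * (v (gp T o h η x, kw T (wd T o) η) * sg o) := by
        rw [mul_comm (v _), ← mul_assoc, hsq, one_mul]
    _ = sg o * v (x, η) := by rw [b5]

/-- **Piece B2.** -/
theorem pieceB2 : PieceB2 := by
  intro T f v hfm hf hv hD o h
  have hm : MeasurableSet {y : P3 | y ∈ SS T o h →
      v ((Ph T o h y).1, (Ph T o h y).2.2) = sg o * v (y.1, y.2.2)} := by
    have h1 : {y : P3 | y ∈ SS T o h →
        v ((Ph T o h y).1, (Ph T o h y).2.2) = sg o * v (y.1, y.2.2)} =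
        (SS T o h)ᶜ ∪ {y : P3 | v ((Ph T o h y).1, (Ph T o h y).2.2) = sg o * v (y.1, y.2.2)} := by
      ext y
      simp only [mem_ofPred_eq, mem_union, mem_compl_iff]
      tauto
    rw [h1]
    have hP := continuous_Ph (T := T) o h
    have c1 : Continuous fun y : P3 => (((Ph T o h y).1, (Ph T o h y).2.2) : ℂ × Dir) :=
      (continuous_fst.comp hP).prodMk (continuous_snd.comp (continuous_snd.comp hP))
    have c2 : Continuous fun y : P3 => ((y.1, y.2.2) : ℂ × Dir) := by fun_prop
    exact (isOpen_SS o h).measurableSet.compl.union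
      (measurableSet_eq_fun (hv.comp c1.measurable) (measurable_const.mul (hv.comp c2.measurable)))
  have h2 : ∀ᵐ q : Dir × Dir, ∀ᵐ x : ℂ, ((x, q) : P3) ∈ SS T o h →
      v ((Ph T o h (x, q)).1, (Ph T o h (x, q)).2.2) = sg o * v (x, q.2) :=
    Eventually.of_forall fun q => fixed hf hD o h q.1 q.2
  rw [Measure.volume_eq_prod, Measure.ae_prod_iff_ae_ae hm]
  rw [Measure.ae_ae_comm hm]
  exact h2

end H36.BP
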